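import Mathlib
import Pool.Agent.Lib.helper23.VorC

set_option autoImplicit false

namespace Pool.Agent.Results.MP_70c392_co.Main

/-- the Voronoi cell of `v` with respect to the sites `T` -/
def cell {V : Type} (G : SimpleGraph V) (T : Finset V) (v : V) : Set V :=
  {u | ∀ w ∈ T, G.dist u v ≤ G.dist u w}

/-- the number of sites with an infinite cell -/
noncomputable def infCells {V : Type} (G : SimpleGraph V) (T : Finset V) : ℕ :=
  {v | v ∈ T ∧ (cell G T v).Infinite}.ncard

/-- the survival number -/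
noncomputable def surv {V : Type} (G : SimpleGraph V) : ℕ∞ :=
  ⨆ (n : ℕ) (_ : 1 ≤ n ∧ ∃ d : ℕ, ∀ T : Finset V, n ≤ T.card →
    (∀ v ∈ T, ∀ w ∈ T, v ≠ w → d < G.dist v w) → n ≤ infCells G T), (n : ℕ∞)

/-- each value is the average of the values at the neighbours -/
def Harmonic {V : Type} (G : SimpleGraph V) (h : V → ℝ) : Prop :=
  ∀ v, ((G.neighborSet v).ncard : ℝ) * h v = ∑ᶠ w ∈ G.neighborSet v, h w

/-- bounded harmonic functions are constant -/
def Liouville {V : Type} (G : SimpleGraph V) : Prop :=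
  ∀ h : V → ℝ, Harmonic G h → (∃ C, ∀ v, |h v| ≤ C) → ∀ u v, h u = h v

open Pool.Agent.Lib.helper23.Vor in
theorem result : ∃ (V : Type) (G : SimpleGraph V), Infinite V ∧ G.Connected ∧
    (∀ v, (G.neighborSet v).Finite) ∧ (∀ u v, ∃ φ : G ≃g G, φ u = v) ∧
    ¬ Liouville G ∧ surv G < ⊤ :=
  ⟨P, mg D2, inferInstance, dist2.1, fin2, trans2, fun h => harm_ne (h (fun p => harm p.1) harm_nb
    ⟨1, fun p => harm_bd p.1⟩ (FreeGroup.of 0, 0) (1, 0)), surv2.trans_lt (ENat.coe_lt_top 8)⟩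

end Pool.Agent.Results.MP_70c392_co.Main
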